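import Pool.Agent.KTB.StmtsKB

/-!
# Row NST of the squad KTB: the induction step
-/

set_option autoImplicit false

namespace Pool.Agent.KTB.H24

open Finset
open scoped Classical

theorem vnul (hRay : RayStmt) {ι T : Type} [Fintype ι] {D : Dat ι T} {S Q : Finset ι}
    (h : D.Valid S Q) : D.nul (S \ Q) + 1 = D.nul S := by
  obtain ⟨p, f, hne, hr, -⟩ := h
  exact (hRay ι T D S Q p f hr hne).2.2.2.2.1

/-- at most one index of a disjoint family contains a given element -/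
theorem card_le {α β : Type} {F : Finset α} {g : α → Finset β}
    (hd : ∀ q ∈ F, ∀ q' ∈ F, q ≠ q' → Disjoint (g q) (g q')) (j : β) :
    (F.filter fun q => j ∈ g q).card ≤ 1 := by
  rw [Finset.card_le_one]
  intro a ha b hb
  rw [Finset.mem_filter] at ha hb
  by_contra hab
  exact Finset.disjoint_left.1 (hd a ha.1 b hb.1 hab) ha.2 hb.2

/-- row NST -/
theorem nst (hRay : RayStmt) (hFrc : FrcStmt) (hSte : SteStmt) (hClm : ClmStmt) : NstStmt := by
  intro ι T _ D S R K μ ih hN hμ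
  have hnR := vnul hRay hN.vd
  obtain ⟨F, hF3, hFr, hFd⟩ := hFrc ι T D (S \ R) K μ hN.ipc (by omega)
  -- the conclusion for the smaller situations
  have hA : ∀ q ∈ F, ∃ X Z, X ⊆ Z ∧ q.2 ∈ Z ∧ D.Valid S X ∧ D.Valid (S \ X) (Z \ X ∪ R) ∧
      ((∃ j ∈ K \ D.par (S \ R) K q.2, ∃ b ∈ Z \ X ∪ R, D.x j b ≠ 0) →
        D.NC (S \ X) (Z \ X ∪ R) (K \ D.par (S \ R) K q.2)) := by
    intro q hq
    obtain ⟨X, Z, h1, h2, h3, -, h5, h6⟩ := hSte ι T D S R K μ q.1 q.2 hN (hFr q hq)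
    refine ⟨X, Z, h1, h2, h3, h5, fun ht => ih _ _ _ ?_ (h6 ht)⟩
    have := vnul hRay h3
    omega
  -- two touches
  have hB : ∀ j ∈ K, ∀ b ∈ R, D.x j b ≠ 0 → ∀ j' ∈ K, ∀ b' ∈ R, D.x j' b' ≠ 0 →
      ∀ q ∈ F, j ∉ D.par (S \ R) K q.2 → j' ∉ D.par (S \ R) K q.2 → j' = j ∧ b' = b := by
    intro j hj b hb hx j' hj' b' hb' hx' q hq hp hp'
    obtain ⟨X, Z, -, -, -, -, h6⟩ := hA q hq
    obtain ⟨r, -, k, -, -, hu, -⟩ := h6 ⟨j, Finset.mem_sdiff.2 ⟨hj, hp⟩, b,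
      Finset.mem_union_right _ hb, hx⟩
    obtain ⟨e1, e2⟩ := hu j (Finset.mem_sdiff.2 ⟨hj, hp⟩) b (Finset.mem_union_right _ hb) hx
    obtain ⟨e3, e4⟩ := hu j' (Finset.mem_sdiff.2 ⟨hj', hp'⟩) b' (Finset.mem_union_right _ hb') hx'
    exact ⟨e3.trans e1.symm, e4.trans e2.symm⟩
  obtain ⟨k', hk', r, hr, hx⟩ := hN.tch
  have hC : ∀ j ∈ K, ∀ b ∈ R, D.x j b ≠ 0 → j = k' ∧ b = r := by
    intro j hj b hb hxj
    by_contra hne
    have h1 : F ⊆ (F.filter fun q => k' ∈ D.par (S \ R) K q.2) ∪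
        F.filter fun q => j ∈ D.par (S \ R) K q.2 := by
      intro q hq
      rw [Finset.mem_union, Finset.mem_filter, Finset.mem_filter]
      by_contra h2
      push Not at h2
      exact hne (hB k' hk' r hr hx j hj b hb hxj q hq (h2.1 hq) (h2.2 hq))
    have h2 := Finset.card_le_card h1
    have h3 := Finset.card_union_le (F.filter fun q => k' ∈ D.par (S \ R) K q.2)
      (F.filter fun q => j ∈ D.par (S \ R) K q.2)
    have h4 := card_le (g := fun q : T × ι => D.par (S \ R) K q.2) hFd k'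
    have h5 := card_le (g := fun q : T × ι => D.par (S \ R) K q.2) hFd j
    omega
  -- a good free point
  obtain ⟨q, hq, hqp⟩ : ∃ q ∈ F, k' ∉ D.par (S \ R) K q.2 := by
    by_contra h
    push Not at h
    have h4 := card_le (g := fun q : T × ι => D.par (S \ R) K q.2) hFd k'
    rw [Finset.filter_true_of_mem h] at h4
    omega
  obtain ⟨X, Z, h1, h2, h3, h5, h6⟩ := hA q hq
  have hkm : k' ∈ K \ D.par (S \ R) K q.2 := Finset.mem_sdiff.2 ⟨hk', hqp⟩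
  have hrm : r ∈ Z \ X ∪ R := Finset.mem_union_right _ hr
  obtain ⟨r1, -, k1, -, hx1, hu, M, hM⟩ := h6 ⟨k', hkm, r, hrm, hx⟩
  obtain ⟨e1, e2⟩ := hu k' hkm r hrm hx
  subst e1
  subst e2
  have hf := hFr q hq
  have htX : q.2 ∈ X := by
    by_contra hX
    have hm : q.2 ∈ Z \ X ∪ R := Finset.mem_union_left _ (Finset.mem_sdiff.2 ⟨h2, hX⟩)
    obtain ⟨-, e⟩ := hu q.1 (Finset.mem_sdiff.2 ⟨hf.kK, hf.kpar⟩) q.2 hm (by
      rw [hf.tk]
      exact one_ne_zero)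
    have h7 : q.2 ∈ S \ R := (Finset.mem_filter.1 hf.tN).1
    rw [e] at h7
    exact (Finset.mem_sdiff.1 h7).2 hr
  obtain ⟨M', hM'⟩ := hClm ι T D S R X Z K M μ q.1 k' q.2 r hN hf h1 htX h3 h5 hr hqp hC hM
  exact ⟨r, hr, k', hk', hx1, hC, M', hM'⟩

end Pool.Agent.KTB.H24
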